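import Pool.Agent.T2H99.RG.Y

/-!
A continuous martingale `M` of a filtration `F`, and a larger filtration `G`, such that `M` is a
continuous semimartingale of `G` whose finite variation part is not absolutely continuous with
respect to the quadratic variation of `M`.

Construction. Let `φ` be a sequence of independent fair signs, `V` the random continuous increasing
function on `[0, 1]` whose dyadic densities are `∏ j, (1 + a j * φ j * r j)` with the Rademacher
functions `r j` and `a j ^ 2 = 1 / (2 (j + 2))`. As `∑ a j ^ 2 = ∞`, `V` is purely singular for every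
`φ`; as the sum diverges only logarithmically, a second moment bound shows that the law of
`B = W + V`, for a Brownian motion `W` independent of `φ`, has finite relative entropy with respect
to Wiener measure. Hence in the filtration `F` of `B` the compensator of `V` is `∫ b ds` with an
integrable `b`, so that `M = B - ∫ b ds` is a martingale of `F`, whereas in the filtration `G`
generated by `φ` and `W` one has `M = W + (V - ∫ b ds)`.
-/

set_option autoImplicit false

open MeasureTheory ProbabilityTheory Finset Filter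
open scoped NNReal Topology

namespace Pool.Agent.Results.MP_e3daee_pr.Irregular

/-- `M` is a continuous local martingale with respect to the filtration `F`. -/
structure ContLocMart {Ω : Type*} {mΩ : MeasurableSpace Ω} (P : Measure Ω)
    (F : Filtration ℝ≥0 mΩ) (M : ℝ≥0 → Ω → ℝ) : Prop where
  /-- All paths are continuous. -/
  cont : ∀ ω, Continuous fun t => M t ω
  /-- There are stopping times of `F` increasing to infinity along which `M` is a martingale. -/
  loc : Locally (fun Y => Martingale Y F P) F M P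

/-- `M = N + A` is a decomposition of `M` as a continuous semimartingale of the filtration `G`. -/
structure Decomp {Ω : Type*} {mΩ : MeasurableSpace Ω} (P : Measure Ω)
    (G : Filtration ℝ≥0 mΩ) (M N A : ℝ≥0 → Ω → ℝ) : Prop where
  /-- `N` is a continuous local martingale of `G`. -/
  mart : ContLocMart P G N
  /-- All paths of `A` are continuous. -/
  cont : ∀ ω, Continuous fun t => A t ω
  /-- `A` is adapted to `G`. -/
  adapted : ∀ t, Measurable[G t] (A t)
  /-- `A` starts at zero. -/
  zero : ∀ ω, A 0 ω = 0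
  /-- The paths of `A` have finite variation on compact intervals. -/
  finVar : ∀ ω, LocallyBoundedVariationOn (fun t => A t ω) Set.univ
  /-- The decomposition. -/
  eq : ∀ t ω, M t ω = N t ω + A t ω

/-- `C` is the quadratic variation of `X`: for every `t` and every sequence of partitions
`0 = u n 0 ≤ u n 1 ≤ ... ≤ u n (K n) = t` whose mesh tends to zero, the sums of the squared
increments of `X` converge in probability to `C t`. -/
def QuadVar {Ω : Type*} {mΩ : MeasurableSpace Ω} (P : Measure Ω) (X C : ℝ≥0 → Ω → ℝ) : Prop :=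
  ∀ (t : ℝ≥0) (u : ℕ → ℕ → ℝ≥0) (K : ℕ → ℕ), (∀ n, Monotone (u n)) → (∀ n, u n 0 = 0) →
    (∀ n, u n (K n) = t) →
    (∀ ε : ℝ, 0 < ε → ∀ᶠ n in atTop, ∀ k < K n, (u n (k + 1) : ℝ) - u n k < ε) →
    TendstoInMeasure P
      (fun n ω => ∑ k ∈ range (K n), (X (u n (k + 1)) ω - X (u n k) ω) ^ 2) atTop (C t)

/-- The function `a` is absolutely continuous with respect to the function `c` on compact intervals:
for all `T` and `ε` there is `δ` such that for every finite family of non-overlapping intervals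
`[l i, r i] ⊆ [0, T]` with total increment of `c` less than `δ`, the total absolute increment of `a`
is less than `ε`. -/
def AbsContWrt (a c : ℝ≥0 → ℝ) : Prop :=
  ∀ T : ℝ≥0, ∀ ε : ℝ, 0 < ε → ∃ δ : ℝ, 0 < δ ∧ ∀ (J : Finset ℕ) (l r : ℕ → ℝ≥0),
    (∀ i ∈ J, l i ≤ r i ∧ r i ≤ T) →
    (∀ i ∈ J, ∀ j ∈ J, i ≠ j → Disjoint (Set.Ioo (l i) (r i)) (Set.Ioo (l j) (r j))) →
    ∑ i ∈ J, (c (r i) - c (l i)) < δ → ∑ i ∈ J, |a (r i) - a (l i)| < ε

theorem result : ∃ (Ω : Type) (mΩ : MeasurableSpace Ω) (P : Measure Ω)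
    (_ : IsProbabilityMeasure P) (_ : P.IsComplete) (F G : Filtration ℝ≥0 mΩ)
    (M N A C : ℝ≥0 → Ω → ℝ),
    (∀ B : Set Ω, P B = 0 → MeasurableSet[F 0] B ∧ MeasurableSet[G 0] B) ∧
    (∀ t, F t ≤ G t) ∧
    ContLocMart P F M ∧
    Decomp P G M N A ∧
    QuadVar P N C ∧ QuadVar P M C ∧
    ∀ᵐ ω ∂P, ¬ AbsContWrt (fun t => A t ω) (fun t => C t ω) := by
  obtain ⟨Ω, mΩ, P, hP, W, hW⟩ := T2H99.RG.exists_nice
  set μ : Measure ((ℕ → Bool) × Ω) := T2H99.RG.signs.prod P with hμ
  refine ⟨(ℕ → Bool) × Ω, T2H99.RG.mc μ, T2H99.RG.cmu μ, inferInstance, inferInstance,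
    T2H99.RG.cfil (T2H99.RG.FB hW) μ, T2H99.RG.cfil (T2H99.RG.GG hW) μ, T2H99.RG.MF hW,
    fun t p => W t p.2, T2H99.RG.AA hW, fun t _ => (t : ℝ), ?_, ?_, ?_, ?_, ?_, ?_, ?_⟩
  · intro B hB
    exact ⟨T2H99.RG.null_mem_cfil _ μ 0 hB, T2H99.RG.null_mem_cfil _ μ 0 hB⟩
  · exact T2H99.RG.cfil_mono (T2H99.RG.FB_le_GG hW)
  · exact ⟨fun p => (hW.cont p.2).add (T2H99.RG.AA_cont hW p),
      Locally.of_prop (T2H99.RG.MF_mart hW)⟩
  · exact ⟨⟨fun p => hW.cont p.2, Locally.of_prop (T2H99.RG.W_mart hW)⟩, T2H99.RG.AA_cont hW,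
      T2H99.RG.AA_meas hW, T2H99.RG.AA_zero hW, T2H99.RG.AA_bv hW, fun _ _ => rfl⟩
  · exact T2H99.RG.W_qv hW
  · exact T2H99.RG.MF_qv hW
  · exact Eventually.of_forall (T2H99.RG.AA_not_ac hW)

end Pool.Agent.Results.MP_e3daee_pr.Irregular
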